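import Pool.Agent.H722S.Sqz

/-! Automorphisms of the domain. -/

set_option autoImplicit false

open Filter Topology Metric

namespace Pool.Agent.H722S

variable {n : ℕ}

/-- the square root on the right half plane -/
noncomputable def cs (u : ℂ) : ℂ := Complex.exp (Complex.log u / 2)

lemma cs_ne (u : ℂ) : cs u ≠ 0 := Complex.exp_ne_zero _

lemma cs_norm {u : ℂ} (hu : u ≠ 0) : ‖cs u‖ ^ 4 = ‖u‖ ^ 2 := by
  have h1 : ‖cs u‖ ^ 2 = ‖u‖ := by
    unfold cs
    rw [Complex.norm_exp, ← Real.exp_nat_mul]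
    have : ((2 : ℕ) : ℝ) * (Complex.log u / 2).re = Real.log ‖u‖ := by
      rw [← Complex.log_re]
      simp
      ring
    rw [this, Real.exp_log (norm_pos_iff.2 hu)]
  calc ‖cs u‖ ^ 4 = (‖cs u‖ ^ 2) ^ 2 := by ring
    _ = ‖u‖ ^ 2 := by rw [h1]

lemma cs_div {c : ℝ} (hc : 0 < c) {u : ℂ} (hu : 0 < u.re) :
    cs u * cs ((c : ℂ) / u) = (Real.sqrt c : ℂ) := by
  unfold cs
  have harg : u.arg ≠ Real.pi := by
    have h1 := Complex.abs_arg_lt_pi_div_two_iff.2 (Or.inl hu)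
    intro h
    rw [h, abs_of_pos Real.pi_pos] at h1
    linarith [Real.pi_pos]
  have hu0 := ne_of_re hu
  rw [div_eq_mul_inv (c : ℂ) u, Complex.log_ofReal_mul hc (inv_ne_zero hu0), Complex.log_inv _ harg,
    ← Complex.exp_add]
  have h2 : Complex.log u / 2 + (((Real.log c : ℝ) : ℂ) + -Complex.log u) / 2 =
      ((Real.log c / 2 : ℝ) : ℂ) := by push_cast; ring
  rw [h2, ← Complex.ofReal_exp]
  congr 1
  rw [Real.sqrt_eq_rpow, Real.rpow_def_of_pos hc]
  congr 1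
  ring

/-- the automorphisms of the domain -/
noncomputable def psi (o l : Fin n) (a : ℝ) (z : EuclideanSpace ℂ (Fin n)) :
    EuclideanSpace ℂ (Fin n) :=
  WithLp.toLp 2 fun i =>
    if i = l then (Real.sqrt (Real.sqrt (1 - a ^ 2)) : ℂ) * z l / cs (1 - a * z o)
    else if i = o then (z o - a) / (1 - a * z o)
    else (Real.sqrt (1 - a ^ 2) : ℂ) * z i / (1 - a * z o)

lemma psi_l (o l : Fin n) (a : ℝ) (z : EuclideanSpace ℂ (Fin n)) :
    psi o l a z l = (Real.sqrt (Real.sqrt (1 - a ^ 2)) : ℂ) * z l / cs (1 - a * z o) := by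
  simp [psi]

lemma psi_o {o l : Fin n} (hol : o ≠ l) (a : ℝ) (z : EuclideanSpace ℂ (Fin n)) :
    psi o l a z o = (z o - a) / (1 - a * z o) := by simp [psi, hol]

lemma psi_i {o l i : Fin n} (hi : i ≠ l) (hi' : i ≠ o) (a : ℝ) (z : EuclideanSpace ℂ (Fin n)) :
    psi o l a z i = (Real.sqrt (1 - a ^ 2) : ℂ) * z i / (1 - a * z o) := by simp [psi, hi, hi']

lemma psi_diff {o l : Fin n} (hol : o ≠ l) {a : ℝ} (ha : |a| < 1) :
    DifferentiableOn ℂ (psi o l a) (DD l) := by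
  have hc : ∀ i : Fin n, DifferentiableOn ℂ (fun z : EuclideanSpace ℂ (Fin n) => z i) (DD l) :=
    fun i => ((EuclideanSpace.proj i : EuclideanSpace ℂ (Fin n) →L[ℂ] ℂ).differentiable).differentiableOn
  rw [differentiableOn_euclidean]
  intro i
  have hl := hc l
  have ho := hc o
  have hi' := hc i
  have hre : ∀ z ∈ DD l, 0 < (1 - (a : ℂ) * z o).re := fun z hz =>
    one_sub_ne ha (coord_lt_one hz o)
  have hne : ∀ z ∈ DD l, (1 - (a : ℂ) * z o) ≠ 0 := fun z hz => ne_of_re (hre z hz)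
  by_cases hi : i = l
  · subst hi
    simp only [psi_l, div_eq_mul_inv]
    refine DifferentiableOn.mul (by fun_prop) (DifferentiableOn.inv ?_ fun z _ => cs_ne _)
    unfold cs
    simp only [div_eq_mul_inv]
    have hlog : DifferentiableOn ℂ (fun z : EuclideanSpace ℂ (Fin n) =>
        Complex.log (1 - (a : ℂ) * z o)) (DD i) := by
      refine DifferentiableOn.clog (by fun_prop) fun z hz => ?_
      exact Or.inl (hre z hz)
    exact (hlog.mul_const _).cexp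
  · by_cases hi2 : i = o
    · subst hi2
      simp only [psi_o hol, div_eq_mul_inv]
      exact DifferentiableOn.mul (by fun_prop) (DifferentiableOn.inv (by fun_prop) hne)
    · simp only [psi_i hi hi2, div_eq_mul_inv]
      exact DifferentiableOn.mul (by fun_prop) (DifferentiableOn.inv (by fun_prop) hne)

lemma split_sum {o l : Fin n} (hol : o ≠ l) (f : Fin n → ℝ) :
    ∑ i ∈ Finset.univ.erase l, f i = ∑ i ∈ (Finset.univ.erase l).erase o, f i + f o :=
  (Finset.sum_erase_add _ _ (Finset.mem_erase.2 ⟨hol, Finset.mem_univ o⟩)).symm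

lemma psi_maps {o l : Fin n} (hol : o ≠ l) {a : ℝ} (ha : |a| < 1) :
    Set.MapsTo (psi o l a) (DD l) (DD l) := by
  intro z hz
  have h1 : rr l z < 0 := hz
  show rr l _ < 0
  rw [rr_eq, split_sum hol] at h1 ⊢
  have hre : 0 < (1 - (a : ℂ) * z o).re := one_sub_ne ha (coord_lt_one hz o)
  have hne := ne_of_re hre
  have hpos : 0 < ‖1 - (a : ℂ) * z o‖ ^ 2 := pow_pos (norm_pos_iff.2 hne) 2
  have ha2 : 0 < 1 - a ^ 2 := by
    have := abs_lt.1 ha
    nlinarith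
  have h2 : ∑ i ∈ (Finset.univ.erase l).erase o, ‖psi o l a z i‖ ^ 2 =
      (1 - a ^ 2) * (∑ i ∈ (Finset.univ.erase l).erase o, ‖z i‖ ^ 2) /
        ‖1 - (a : ℂ) * z o‖ ^ 2 := by
    rw [Finset.mul_sum, Finset.sum_div]
    refine Finset.sum_congr rfl fun i hi => ?_
    rw [psi_i (Finset.ne_of_mem_erase (Finset.mem_of_mem_erase hi)) (Finset.ne_of_mem_erase hi),
      norm_div, norm_mul, div_pow, mul_pow, Complex.norm_real, Real.norm_eq_abs, sq_abs,
      Real.sq_sqrt ha2.le]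
  have h3 : ‖psi o l a z o‖ ^ 2 = ‖z o - a‖ ^ 2 / ‖1 - (a : ℂ) * z o‖ ^ 2 := by
    rw [psi_o hol, norm_div, div_pow]
  have h4 : ‖psi o l a z l‖ ^ 4 = (1 - a ^ 2) * ‖z l‖ ^ 4 / ‖1 - (a : ℂ) * z o‖ ^ 2 := by
    rw [psi_l, norm_div, norm_mul, div_pow, mul_pow, Complex.norm_real, Real.norm_eq_abs,
      cs_norm hne]
    congr 2
    rw [abs_of_nonneg (Real.sqrt_nonneg _)]
    calc (Real.sqrt (Real.sqrt (1 - a ^ 2))) ^ 4 = ((Real.sqrt (Real.sqrt (1 - a ^ 2))) ^ 2) ^ 2 := by ring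
      _ = 1 - a ^ 2 := by rw [Real.sq_sqrt (Real.sqrt_nonneg _), Real.sq_sqrt ha2.le]
  rw [h2, h3, h4, ← add_div, ← add_div, sub_neg, div_lt_one hpos]
  have h5 := mob a (z o)
  set S := ∑ i ∈ (Finset.univ.erase l).erase o, ‖z i‖ ^ 2
  have h6 : (1 - a ^ 2) * (S + ‖z o‖ ^ 2 + ‖z l‖ ^ 4 - 1) < 0 := mul_neg_of_pos_of_neg ha2 h1
  nlinarith

lemma psi_psi {o l : Fin n} (hol : o ≠ l) {a : ℝ} (ha : |a| < 1) {z : EuclideanSpace ℂ (Fin n)}
    (hz : z ∈ DD l) : psi o l (-a) (psi o l a z) = z := by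
  have hre : 0 < (1 - (a : ℂ) * z o).re := one_sub_ne ha (coord_lt_one hz o)
  have hne := ne_of_re hre
  have ha2 : 0 < 1 - a ^ 2 := by
    have := abs_lt.1 ha
    nlinarith
  have ha3 : ((1 : ℂ) - (a : ℂ) ^ 2) ≠ 0 := by
    have : ((1 - a ^ 2 : ℝ) : ℂ) ≠ 0 := by exact_mod_cast ha2.ne'
    simpa using this
  have h1 : 1 - ((-a : ℝ) : ℂ) * psi o l a z o = ((1 - a ^ 2 : ℝ) : ℂ) / (1 - (a : ℂ) * z o) := by
    rw [psi_o hol, eq_div_iff hne]
    push_cast
    rw [sub_mul, mul_assoc, div_mul_cancel₀ _ hne]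
    ring
  have h2 : 1 - (-a) ^ 2 = 1 - a ^ 2 := by ring
  have hd : ((1 - a ^ 2 : ℝ) : ℂ) ≠ 0 := by exact_mod_cast ha2.ne'
  ext i
  by_cases hi : i = l
  · subst hi
    rw [psi_l, h1, psi_l, h2]
    have h3 := cs_div ha2 hre
    have h4 : (Real.sqrt (Real.sqrt (1 - a ^ 2)) : ℂ) * (Real.sqrt (Real.sqrt (1 - a ^ 2)) : ℂ) =
        (Real.sqrt (1 - a ^ 2) : ℂ) := by
      rw [← Complex.ofReal_mul, Real.mul_self_sqrt (Real.sqrt_nonneg _)]
    have h5 := cs_ne (1 - (a : ℂ) * z o)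
    have h6 := cs_ne (((1 - a ^ 2 : ℝ) : ℂ) / (1 - (a : ℂ) * z o))
    rw [← mul_div_assoc, div_div, h3, ← mul_assoc, h4, mul_comm, mul_div_assoc, div_self, mul_one]
    have : Real.sqrt (1 - a ^ 2) ≠ 0 := (Real.sqrt_pos.2 ha2).ne'
    exact_mod_cast this
  · by_cases hi2 : i = o
    · subst hi2
      rw [psi_o hi, h1, psi_o hi, div_eq_iff (div_ne_zero hd hne)]
      push_cast
      have h3 : (z i - (a : ℂ)) / (1 - (a : ℂ) * z i) - -(a : ℂ) =
          (z i - (a : ℂ) + a * (1 - (a : ℂ) * z i)) / (1 - (a : ℂ) * z i) := by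
        rw [add_div, mul_div_assoc, div_self hne]
        ring
      rw [h3, ← mul_div_assoc]
      congr 1
      ring
    · rw [psi_i hi hi2, h1, psi_i hi hi2, h2, ← mul_div_assoc, div_div_div_cancel_right₀ hne,
        ← mul_assoc, ← Complex.ofReal_mul, Real.mul_self_sqrt ha2.le, mul_comm, mul_div_assoc,
        div_self hd, mul_one]

lemma psi_inj {o l : Fin n} (hol : o ≠ l) {a : ℝ} (ha : |a| < 1) :
    Set.InjOn (psi o l a) (DD l) := by
  intro x hx y hy hxy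
  rw [← psi_psi hol ha hx, hxy, psi_psi hol ha hy]

lemma psi_image {o l : Fin n} (hol : o ≠ l) {a : ℝ} (ha : |a| < 1) :
    psi o l a '' DD l = DD l := by
  have ha' : |(-a)| < 1 := by rwa [abs_neg]
  apply Set.Subset.antisymm (psi_maps hol ha).image_subset
  intro y hy
  refine ⟨psi o l (-a) y, psi_maps hol ha' hy, ?_⟩
  have := psi_psi hol ha' hy
  rwa [neg_neg] at this

end Pool.Agent.H722S
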