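import Pool.Agent.H722S.Dom

/-! First and second derivatives of the defining function. -/

set_option autoImplicit false

open Filter Topology Metric

namespace Pool.Agent.H722S

variable {n : ℕ}

/-- the coordinate, as a real linear map -/
noncomputable def pr (i : Fin n) : EuclideanSpace ℂ (Fin n) →L[ℝ] ℂ :=
  (EuclideanSpace.proj i : EuclideanSpace ℂ (Fin n) →L[ℂ] ℂ).restrictScalars ℝ

@[simp] lemma pr_apply (i : Fin n) (z : EuclideanSpace ℂ (Fin n)) : pr i z = z i := rfl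

/-- the real bilinear form `⟪z_i, v_i⟫` -/
noncomputable def qq (i : Fin n) :
    EuclideanSpace ℂ (Fin n) →L[ℝ] EuclideanSpace ℂ (Fin n) →L[ℝ] ℝ :=
  (innerSL ℝ (E := ℂ)).bilinearComp (pr i) (pr i)

lemma qq_apply (i : Fin n) (z v : EuclideanSpace ℂ (Fin n)) :
    qq i z v = inner ℝ (z i) (v i) := rfl

lemma hasFDerivAt_sq (i : Fin n) (z : EuclideanSpace ℂ (Fin n)) :
    HasFDerivAt (fun z : EuclideanSpace ℂ (Fin n) => ‖z i‖ ^ 2) ((2 : ℝ) • qq i z) z := by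
  have h := ((pr i).hasFDerivAt (x := z)).norm_sq
  refine h.congr_fderiv ?_
  ext v
  simp [qq]
  ring

/-- the derivative of the defining function -/
noncomputable def dr (l : Fin n) (z : EuclideanSpace ℂ (Fin n)) :
    EuclideanSpace ℂ (Fin n) →L[ℝ] ℝ :=
  (∑ i ∈ Finset.univ.erase l, (2 : ℝ) • qq i z) + (4 * ‖z l‖ ^ 2) • qq l z

lemma hasFDerivAt_rr (l : Fin n) (z : EuclideanSpace ℂ (Fin n)) :
    HasFDerivAt (rr l) (dr l z) z := by
  have h1 : HasFDerivAt (fun z : EuclideanSpace ℂ (Fin n) =>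
      ∑ i ∈ Finset.univ.erase l, ‖z i‖ ^ 2) (∑ i ∈ Finset.univ.erase l, (2 : ℝ) • qq i z) z :=
    HasFDerivAt.fun_sum fun i _ => hasFDerivAt_sq i z
  have h2 := (hasFDerivAt_sq l z).pow 2
  have h3 := (h1.add h2).sub_const 1
  have he : rr l = fun z => (∑ i ∈ Finset.univ.erase l, ‖z i‖ ^ 2) + (‖z l‖ ^ 2) ^ 2 - 1 := by
    ext z
    rw [rr_eq]
    ring
  rw [he]
  refine h3.congr_fderiv ?_
  ext v
  simp [dr]
  ring

lemma fderiv_rr (l : Fin n) : fderiv ℝ (rr l) = dr l := by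
  ext1 z
  exact (hasFDerivAt_rr l z).fderiv

lemma hasFDerivAt_dr (l : Fin n) (z : EuclideanSpace ℂ (Fin n)) :
    HasFDerivAt (dr l) ((∑ i ∈ Finset.univ.erase l, (2 : ℝ) • qq i) + ((4 * ‖z l‖ ^ 2) • qq l +
      ((4 : ℝ) • (2 : ℝ) • qq l z).smulRight (qq l z))) z := by
  have h1 : HasFDerivAt (fun z : EuclideanSpace ℂ (Fin n) =>
      ∑ i ∈ Finset.univ.erase l, (2 : ℝ) • qq i z) (∑ i ∈ Finset.univ.erase l, (2 : ℝ) • qq i) z :=
    HasFDerivAt.fun_sum fun i _ => ((qq i).hasFDerivAt (x := z)).const_smul (2 : ℝ)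
  have h2 := ((hasFDerivAt_sq l z).const_mul 4).smul ((qq l).hasFDerivAt (x := z))
  exact h1.add h2

lemma second (l : Fin n) (z v : EuclideanSpace ℂ (Fin n)) :
    fderiv ℝ (fderiv ℝ (rr l)) z v v =
      (∑ i ∈ Finset.univ.erase l, 2 * ‖v i‖ ^ 2) + 4 * ‖z l‖ ^ 2 * ‖v l‖ ^ 2 +
        8 * (inner ℝ (z l) (v l)) ^ 2 := by
  rw [fderiv_rr, (hasFDerivAt_dr l z).fderiv]
  simp [qq_apply]
  ring

lemma inner_sq_add (a b : ℂ) :
    (inner ℝ a b) ^ 2 + (inner ℝ a (Complex.I * b)) ^ 2 = ‖a‖ ^ 2 * ‖b‖ ^ 2 := by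
  rw [Complex.inner, Complex.inner, ← Complex.normSq_eq_norm_sq, ← Complex.normSq_eq_norm_sq]
  simp [Complex.normSq_apply]
  ring

lemma levi_eq (l : Fin n) (z v : EuclideanSpace ℂ (Fin n)) :
    fderiv ℝ (fderiv ℝ (rr l)) z v v +
      fderiv ℝ (fderiv ℝ (rr l)) z (Complex.I • v) (Complex.I • v) =
      (∑ i ∈ Finset.univ.erase l, 4 * ‖v i‖ ^ 2) + 16 * ‖z l‖ ^ 2 * ‖v l‖ ^ 2 := by
  rw [second, second]
  have h := inner_sq_add (z l) (v l)
  have h1 : ∀ i, ‖(Complex.I • v) i‖ = ‖v i‖ := by intro i; simp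
  have h2 : (Complex.I • v) l = Complex.I * v l := by simp
  simp only [h1]
  rw [h2]
  have h3 : ∑ i ∈ Finset.univ.erase l, 4 * ‖v i‖ ^ 2 =
      ∑ i ∈ Finset.univ.erase l, 2 * ‖v i‖ ^ 2 + ∑ i ∈ Finset.univ.erase l, 2 * ‖v i‖ ^ 2 := by
    rw [← Finset.sum_add_distrib]
    exact Finset.sum_congr rfl fun i _ => by ring
  rw [h3]
  linear_combination 8 * h

lemma rr_smooth (l : Fin n) : ContDiff ℝ ((⊤ : ℕ∞) : WithTop ℕ∞) (rr l) := by
  have h1 : ∀ i : Fin n, ContDiff ℝ ((⊤ : ℕ∞) : WithTop ℕ∞)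
      (fun z : EuclideanSpace ℂ (Fin n) => ‖z i‖ ^ 2) := by
    intro i
    exact (contDiff_norm_sq ℝ).comp (pr i).contDiff
  have he : rr l = fun z => (∑ i ∈ Finset.univ.erase l, ‖z i‖ ^ 2) + (‖z l‖ ^ 2) ^ 2 - 1 := by
    ext z
    rw [rr_eq]
    ring
  rw [he]
  exact ((ContDiff.sum fun i _ => h1 i).add ((h1 l).pow 2)).sub contDiff_const

/-- the gradient does not vanish away from the origin -/
lemma grad_ne {l : Fin n} {z : EuclideanSpace ℂ (Fin n)} (hz : z ≠ 0) : fderiv ℝ (rr l) z ≠ 0 := by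
  rw [fderiv_rr]
  intro h
  have h1 : dr l z z = 0 := by rw [h]; rfl
  have h2 : dr l z z = (∑ i ∈ Finset.univ.erase l, 2 * ‖z i‖ ^ 2) + 4 * ‖z l‖ ^ 2 * ‖z l‖ ^ 2 := by
    simp [dr, qq_apply]
  rw [h2] at h1
  have h3 : 0 ≤ ∑ i ∈ Finset.univ.erase l, 2 * ‖z i‖ ^ 2 :=
    Finset.sum_nonneg fun i _ => by positivity
  have h4 : 0 ≤ 4 * ‖z l‖ ^ 2 * ‖z l‖ ^ 2 := by positivity
  have h5 : ∑ i ∈ Finset.univ.erase l, 2 * ‖z i‖ ^ 2 = 0 := by linarith
  have h6 : ‖z l‖ = 0 := by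
    by_contra hc
    have : 0 < ‖z l‖ := lt_of_le_of_ne (norm_nonneg _) (Ne.symm hc)
    have : 0 < 4 * ‖z l‖ ^ 2 * ‖z l‖ ^ 2 := by positivity
    linarith
  apply hz
  ext i
  by_cases hi : i = l
  · subst hi
    simpa using h6
  · have := (Finset.sum_eq_zero_iff_of_nonneg fun i _ => by positivity).1 h5 i
      (Finset.mem_erase.2 ⟨hi, Finset.mem_univ i⟩)
    simpa using this

/-- complex tangency at the point `pp o` means that the `o`-th coordinate vanishes -/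
lemma tangent_iff {o l : Fin n} (hol : o ≠ l) (v : EuclideanSpace ℂ (Fin n)) :
    fderiv ℝ (rr l) (pp o) v = 2 * (v o).re := by
  rw [fderiv_rr]
  have hl : (pp o : EuclideanSpace ℂ (Fin n)) l = 0 := by simp [pp, hol.symm]
  have h1 : dr l (pp o) v = ∑ i ∈ Finset.univ.erase l, 2 * inner ℝ ((pp o : EuclideanSpace ℂ (Fin n)) i) (v i) := by
    simp [dr, qq_apply, hl]
  rw [h1, Finset.sum_eq_single o]
  · simp [pp, Complex.inner]
  · intro i _ hi
    simp [pp, hi]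
  · intro h
    exact absurd (Finset.mem_erase.2 ⟨hol, Finset.mem_univ o⟩) h

end Pool.Agent.H722S
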