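import Mathlib

/-! The domain `{z : |z_i|^2 summed over i ≠ l, plus |z_l|^4, is less than 1}` and the derivatives of
its defining function. -/

set_option autoImplicit false

open Filter Topology Metric

namespace Pool.Agent.H722S

variable {n : ℕ}

/-- the defining function -/
noncomputable def rr (l : Fin n) (z : EuclideanSpace ℂ (Fin n)) : ℝ :=
  ‖z‖ ^ 2 - ‖z l‖ ^ 2 + ‖z l‖ ^ 4 - 1

/-- the domain -/
def DD (l : Fin n) : Set (EuclideanSpace ℂ (Fin n)) := {z | rr l z < 0}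

lemma norm_sq_sum (l : Fin n) (z : EuclideanSpace ℂ (Fin n)) :
    ‖z‖ ^ 2 = ∑ i ∈ Finset.univ.erase l, ‖z i‖ ^ 2 + ‖z l‖ ^ 2 := by
  rw [EuclideanSpace.norm_sq_eq, Finset.sum_erase_add _ _ (Finset.mem_univ l)]

lemma rr_eq (l : Fin n) (z : EuclideanSpace ℂ (Fin n)) :
    rr l z = ∑ i ∈ Finset.univ.erase l, ‖z i‖ ^ 2 + ‖z l‖ ^ 4 - 1 := by
  rw [rr, norm_sq_sum l]; ring

lemma cont_coord (i : Fin n) : Continuous fun z : EuclideanSpace ℂ (Fin n) => z i :=
  (EuclideanSpace.proj i : EuclideanSpace ℂ (Fin n) →L[ℂ] ℂ).continuous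

lemma rr_cont (l : Fin n) : Continuous (rr l) := by
  unfold rr
  have := cont_coord l
  fun_prop

lemma DD_open (l : Fin n) : IsOpen (DD l) := isOpen_lt (rr_cont l) continuous_const

lemma zero_mem (l : Fin n) : (0 : EuclideanSpace ℂ (Fin n)) ∈ DD l := by
  simp [DD, rr]

lemma mem_bound {l : Fin n} {z : EuclideanSpace ℂ (Fin n)} (hz : z ∈ DD l) :
    ‖z‖ ^ 2 + ‖z l‖ ^ 2 < 2 := by
  have : rr l z < 0 := hz
  unfold rr at this
  nlinarith [sq_nonneg (‖z l‖ ^ 2 - 1)]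

lemma coord_le (z : EuclideanSpace ℂ (Fin n)) (l : Fin n) : ‖z l‖ ^ 2 ≤ ‖z‖ ^ 2 := by
  rw [norm_sq_sum l]
  have : 0 ≤ ∑ i ∈ Finset.univ.erase l, ‖z i‖ ^ 2 := Finset.sum_nonneg fun i _ => by positivity
  linarith

lemma coord_lt_one {l : Fin n} {z : EuclideanSpace ℂ (Fin n)} (hz : z ∈ DD l) (i : Fin n) :
    ‖z i‖ < 1 := by
  have h : rr l z < 0 := hz
  rw [rr_eq] at h
  have h0 : ∀ j ∈ Finset.univ.erase l, 0 ≤ ‖z j‖ ^ 2 := fun j _ => by positivity
  by_cases hi : i = l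
  · subst hi
    have := Finset.sum_nonneg h0
    by_contra hc
    push Not at hc
    have : 1 ≤ ‖z i‖ ^ 4 := one_le_pow₀ hc
    linarith
  · have h1 := Finset.single_le_sum h0 (Finset.mem_erase.2 ⟨hi, Finset.mem_univ i⟩)
    have h2 : 0 ≤ ‖z l‖ ^ 4 := by positivity
    have h3 : ‖z i‖ ^ 2 < 1 := by linarith
    nlinarith [norm_nonneg (z i)]

lemma DD_bounded (l : Fin n) : Bornology.IsBounded (DD l) := by
  refine Metric.isBounded_ball.subset (s := DD l) (t := ball 0 2) fun z hz => ?_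
  rw [mem_ball_zero_iff]
  have := mem_bound hz
  nlinarith [norm_nonneg z, sq_nonneg ‖z l‖]

lemma DD_convex (l : Fin n) : Convex ℝ (DD l) := by
  have h1 : ∀ i : Fin n, ConvexOn ℝ Set.univ fun z : EuclideanSpace ℂ (Fin n) => ‖z i‖ := by
    intro i
    refine ⟨convex_univ, fun x _ y _ a b ha hb hab => ?_⟩
    have : (a • x + b • y) i = (a : ℂ) * x i + (b : ℂ) * y i := by
      simp
    show ‖(a • x + b • y) i‖ ≤ a • ‖x i‖ + b • ‖y i‖
    rw [this]
    calc ‖(a : ℂ) * x i + (b : ℂ) * y i‖ ≤ ‖(a : ℂ) * x i‖ + ‖(b : ℂ) * y i‖ := norm_add_le _ _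
      _ = a • ‖x i‖ + b • ‖y i‖ := by
        simp [abs_of_nonneg ha, abs_of_nonneg hb]
  have h2 : ConvexOn ℝ Set.univ (fun z : EuclideanSpace ℂ (Fin n) =>
      ∑ i ∈ Finset.univ.erase l, ‖z i‖ ^ 2 + ‖z l‖ ^ 4) := by
    refine ConvexOn.add ?_ ((h1 l).pow (fun x _ => norm_nonneg _) 4)
    have : ∀ s : Finset (Fin n), ConvexOn ℝ Set.univ (fun z : EuclideanSpace ℂ (Fin n) =>
        ∑ i ∈ s, ‖z i‖ ^ 2) := by
      intro s
      induction s using Finset.induction_on with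
      | empty => simpa using convexOn_const (0 : ℝ) convex_univ
      | insert a s ha ih =>
        simp only [Finset.sum_insert ha]
        exact ((h1 a).pow (fun x _ => norm_nonneg _) 2).add ih
    exact this _
  have h3 := h2.convex_lt 1
  have h4 : DD l = {x ∈ Set.univ | (fun z : EuclideanSpace ℂ (Fin n) =>
      ∑ i ∈ Finset.univ.erase l, ‖z i‖ ^ 2 + ‖z l‖ ^ 4) x < 1} := by
    ext z
    simp only [DD, Set.mem_ofPred_eq, Set.mem_univ, true_and]
    rw [rr_eq]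
    constructor <;> intro h <;> linarith
  rw [h4]
  exact h3

lemma DD_connected (l : Fin n) : IsConnected (DD l) :=
  ⟨⟨0, zero_mem l⟩, (DD_convex l).isPreconnected⟩

/-- the boundary point -/
noncomputable def pp (o : Fin n) : EuclideanSpace ℂ (Fin n) := EuclideanSpace.single o 1

lemma pp_front {o l : Fin n} (hol : o ≠ l) : pp o ∈ frontier (DD l) := by
  have hr : ∀ t : ℝ, rr l ((t : ℝ) • pp o) = t ^ 2 - 1 := by
    intro t
    have hl : (t • pp o) l = 0 := by simp [pp, hol.symm]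
    rw [rr, hl, norm_smul]
    simp [pp]
  rw [(DD_open l).frontier_eq]
  refine ⟨?_, ?_⟩
  · have hc : Continuous fun t : ℝ => t • pp o := by fun_prop
    have h1 : Tendsto (fun t : ℝ => t • pp o) (𝓝[<] 1) (𝓝 (pp o)) := by
      have := (hc.tendsto 1).mono_left (nhdsWithin_le_nhds (s := Set.Iio (1 : ℝ)))
      simpa using this
    refine mem_closure_of_tendsto h1 ?_
    have h2 : ∀ᶠ t : ℝ in 𝓝[<] 1, t ∈ Set.Ioo (0 : ℝ) 1 :=
      Ioo_mem_nhdsLT (by norm_num)
    filter_upwards [h2] with t ht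
    show rr l _ < 0
    rw [hr]
    nlinarith [ht.1, ht.2]
  · intro h
    have h' : rr l (pp o) < 0 := h
    have := hr 1
    rw [one_smul] at this
    rw [this] at h'
    norm_num at h'

end Pool.Agent.H722S
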