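import Pool.Agent.H722S.Typ2
import Pool.Agent.H722S.Aut

/-! Assembly. -/

set_option autoImplicit false

open Filter Topology Metric

namespace Pool.Agent.H722S

variable {n : ℕ}

/-- the interior points `psi (-a) (w e_l)` are explicit -/
lemma psi_pt {o l : Fin n} (hol : o ≠ l) (a w : ℝ) :
    psi o l (-a) ((w : ℂ) • EuclideanSpace.single l 1) =
      (a : ℂ) • EuclideanSpace.single o 1 +
        ((Real.sqrt (Real.sqrt (1 - a ^ 2)) * w : ℝ) : ℂ) • EuclideanSpace.single l 1 := by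
  have ho : ((w : ℂ) • EuclideanSpace.single l (1 : ℂ) : EuclideanSpace ℂ (Fin n)) o = 0 := by
    simp [hol]
  have hl : ((w : ℂ) • EuclideanSpace.single l (1 : ℂ) : EuclideanSpace ℂ (Fin n)) l = w := by
    simp
  ext i
  by_cases hi : i = l
  · subst hi
    rw [psi_l, ho, hl]
    have h1 : cs (1 - ((-a : ℝ) : ℂ) * 0) = 1 := by simp [cs]
    rw [h1]
    simp [hol.symm]
  · by_cases hi2 : i = o
    · subst hi2
      rw [psi_o hi, ho]
      simp [hi]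
    · rw [psi_i hi hi2, ho]
      simp [hi, hi2]

lemma wl_mem {l : Fin n} {w : ℝ} (hw : |w| < 1) :
    ((w : ℂ) • EuclideanSpace.single l (1 : ℂ) : EuclideanSpace ℂ (Fin n)) ∈ DD l := by
  show rr l _ < 0
  have h1 : ‖((w : ℂ) • EuclideanSpace.single l (1 : ℂ) : EuclideanSpace ℂ (Fin n))‖ = |w| := by
    rw [norm_smul]; simp
  have h2 : ‖((w : ℂ) • EuclideanSpace.single l (1 : ℂ) : EuclideanSpace ℂ (Fin n)) l‖ = |w| := by
    simp
  rw [rr, h1, h2]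
  have h3 : |w| ^ 4 < 1 := pow_lt_one₀ (abs_nonneg w) hw (by norm_num)
  linarith

/-- large balls in the images of embeddings centred at the points `psi (-a) (w e_l)` -/
lemma embeds {o l : Fin n} (hol : o ≠ l) {a w ρ : ℝ} (ha : |a| < 1) (hw : |w| < 1)
    (hρ0 : 0 < ρ) (hρ1 : ρ < 1) (hwρ : 1 - w ^ 2 ≤ 2 * (1 - ρ) ^ 3) :
    ∃ F : EuclideanSpace ℂ (Fin n) → EuclideanSpace ℂ (Fin n),
      DifferentiableOn ℂ F (DD l) ∧ Set.InjOn F (DD l) ∧ Set.MapsTo F (DD l) (ball 0 1) ∧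
      F (psi o l (-a) ((w : ℂ) • EuclideanSpace.single l 1)) = 0 ∧ ball 0 ρ ⊆ F '' DD l := by
  have ha' : |(-a)| < 1 := by rwa [abs_neg]
  refine ⟨FF l w ∘ psi o l a, (FF_diff l hw).comp (psi_diff hol ha) (psi_maps hol ha),
    (FF_inj l hw).comp (psi_inj hol ha) (psi_maps hol ha),
    (FF_maps l hw).comp (psi_maps hol ha), ?_, ?_⟩
  · have h1 := psi_psi hol ha' (wl_mem (l := l) hw)
    rw [neg_neg] at h1
    rw [Function.comp, h1]
    ext i
    by_cases hi : i = l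
    · subst hi
      rw [FF_l]
      simp
    · rw [FF_i hi]
      simp [hi]
  · rw [Set.image_comp, psi_image hol ha]
    exact FF_surj l hw hρ0 hρ1 hwρ

lemma seq_tendsto {o l : Fin n} (w : ℕ → ℝ) (hw : Tendsto w atTop (𝓝 1)) :
    Tendsto (fun ν => ((w ν : ℂ) • EuclideanSpace.single o (1 : ℂ) +
        ((Real.sqrt (Real.sqrt (1 - w ν ^ 2)) * w ν : ℝ) : ℂ) • EuclideanSpace.single l (1 : ℂ) :
        EuclideanSpace ℂ (Fin n)))
      atTop (𝓝 (pp o)) := by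
  have hc : Continuous fun x : ℝ => ((x : ℂ) • EuclideanSpace.single o (1 : ℂ) +
      ((Real.sqrt (Real.sqrt (1 - x ^ 2)) * x : ℝ) : ℂ) • EuclideanSpace.single l (1 : ℂ) :
      EuclideanSpace ℂ (Fin n)) := by
    fun_prop
  have h := (hc.tendsto 1).comp hw
  have h1 : ((1 : ℝ) : ℂ) • EuclideanSpace.single o (1 : ℂ) +
      ((Real.sqrt (Real.sqrt (1 - (1 : ℝ) ^ 2)) * 1 : ℝ) : ℂ) • EuclideanSpace.single l (1 : ℂ) =
      (pp o : EuclideanSpace ℂ (Fin n)) := by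
    simp [pp]
  rw [h1] at h
  exact h

/-- the space of tangent directions on which the Levi form at `pp o` is positive -/
noncomputable def ww (o l : Fin n) : Submodule ℂ (EuclideanSpace ℂ (Fin n)) :=
  LinearMap.ker (((EuclideanSpace.proj o : EuclideanSpace ℂ (Fin n) →L[ℂ] ℂ) :
    EuclideanSpace ℂ (Fin n) →ₗ[ℂ] ℂ).prod
    ((EuclideanSpace.proj l : EuclideanSpace ℂ (Fin n) →L[ℂ] ℂ) : EuclideanSpace ℂ (Fin n) →ₗ[ℂ] ℂ))

lemma mem_ww {o l : Fin n} {v : EuclideanSpace ℂ (Fin n)} : v ∈ ww o l ↔ v o = 0 ∧ v l = 0 := by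
  simp [ww]

lemma finrank_ww (o l : Fin n) : n - 2 ≤ Module.finrank ℂ (ww o l) := by
  have h := LinearMap.finrank_range_add_finrank_ker
    (((EuclideanSpace.proj o : EuclideanSpace ℂ (Fin n) →L[ℂ] ℂ) :
    EuclideanSpace ℂ (Fin n) →ₗ[ℂ] ℂ).prod
    ((EuclideanSpace.proj l : EuclideanSpace ℂ (Fin n) →L[ℂ] ℂ) : EuclideanSpace ℂ (Fin n) →ₗ[ℂ] ℂ))
  have h2 : Module.finrank ℂ (LinearMap.range
      (((EuclideanSpace.proj o : EuclideanSpace ℂ (Fin n) →L[ℂ] ℂ) :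
    EuclideanSpace ℂ (Fin n) →ₗ[ℂ] ℂ).prod
    ((EuclideanSpace.proj l : EuclideanSpace ℂ (Fin n) →L[ℂ] ℂ) :
      EuclideanSpace ℂ (Fin n) →ₗ[ℂ] ℂ))) ≤ 2 := by
    refine (Submodule.finrank_le _).trans ?_
    simp
  have h3 : Module.finrank ℂ (EuclideanSpace ℂ (Fin n)) = n := by simp
  unfold ww
  omega

end Pool.Agent.H722S
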