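import Pool.Agent.H722S.Dom

/-! Embeddings of the domain into the ball and automorphisms of the domain. -/

set_option autoImplicit false

open Filter Topology Metric

namespace Pool.Agent.H722S

variable {n : ℕ}

lemma mob (w : ℝ) (z : ℂ) :
    ‖1 - (w : ℂ) * z‖ ^ 2 - ‖z - (w : ℂ)‖ ^ 2 = (1 - w ^ 2) * (1 - ‖z‖ ^ 2) := by
  rw [← Complex.normSq_eq_norm_sq, ← Complex.normSq_eq_norm_sq, ← Complex.normSq_eq_norm_sq]
  simp [Complex.normSq_apply]
  ring

lemma one_sub_ne {w : ℝ} (hw : |w| < 1) {z : ℂ} (hz : ‖z‖ < 1) : 0 < (1 - (w : ℂ) * z).re := by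
  have h1 : ‖(w : ℂ) * z‖ < 1 := by
    rw [norm_mul, Complex.norm_real, Real.norm_eq_abs]
    nlinarith [norm_nonneg z, abs_nonneg w]
  have h2 := (Complex.re_le_norm ((w : ℂ) * z)).trans_lt h1
  simp only [Complex.sub_re, Complex.one_re]
  linarith

lemma ne_of_re {z : ℂ} (hz : 0 < z.re) : z ≠ 0 := by
  rintro rfl
  simp at hz

/-- the embedding of the domain into the ball -/
noncomputable def FF (l : Fin n) (w : ℝ) (z : EuclideanSpace ℂ (Fin n)) :
    EuclideanSpace ℂ (Fin n) :=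
  WithLp.toLp 2 fun i => if i = l then (z l - w) / (1 - w * z l)
    else (Real.sqrt ((1 - w ^ 2) / 2) : ℂ) * z i / (1 - w * z l)

lemma FF_l (l : Fin n) (w : ℝ) (z : EuclideanSpace ℂ (Fin n)) :
    FF l w z l = (z l - w) / (1 - w * z l) := by simp [FF]

lemma FF_i {l i : Fin n} (hi : i ≠ l) (w : ℝ) (z : EuclideanSpace ℂ (Fin n)) :
    FF l w z i = (Real.sqrt ((1 - w ^ 2) / 2) : ℂ) * z i / (1 - w * z l) := by simp [FF, hi]

lemma FF_diff (l : Fin n) {w : ℝ} (hw : |w| < 1) : DifferentiableOn ℂ (FF l w) (DD l) := by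
  have hc : ∀ i : Fin n, DifferentiableOn ℂ (fun z : EuclideanSpace ℂ (Fin n) => z i) (DD l) :=
    fun i => ((EuclideanSpace.proj i : EuclideanSpace ℂ (Fin n) →L[ℂ] ℂ).differentiable).differentiableOn
  rw [differentiableOn_euclidean]
  intro i
  have hl := hc l
  have hi' := hc i
  have hne : ∀ z ∈ DD l, (1 - (w : ℂ) * z l) ≠ 0 := fun z hz =>
    ne_of_re (one_sub_ne hw (coord_lt_one hz l))
  by_cases hi : i = l
  · subst hi
    simp only [FF_l, div_eq_mul_inv]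
    exact DifferentiableOn.mul (by fun_prop) (DifferentiableOn.inv (by fun_prop) hne)
  · simp only [FF_i hi, div_eq_mul_inv]
    exact DifferentiableOn.mul (by fun_prop) (DifferentiableOn.inv (by fun_prop) hne)

lemma FF_norm (l : Fin n) {w : ℝ} (hw : |w| < 1) (z : EuclideanSpace ℂ (Fin n)) :
    ‖FF l w z‖ ^ 2 = ((1 - w ^ 2) / 2 * (∑ i ∈ Finset.univ.erase l, ‖z i‖ ^ 2) +
      ‖z l - w‖ ^ 2) / ‖1 - (w : ℂ) * z l‖ ^ 2 := by
  have h0 : 0 ≤ (1 - w ^ 2) / 2 := by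
    have := abs_lt.1 hw
    nlinarith
  rw [norm_sq_sum l, FF_l, norm_div, div_pow, add_div, Finset.mul_sum, Finset.sum_div]
  congr 1
  refine Finset.sum_congr rfl fun i hi => ?_
  rw [FF_i (Finset.ne_of_mem_erase hi), norm_div, norm_mul, div_pow, mul_pow, Complex.norm_real,
    Real.norm_eq_abs, sq_abs, Real.sq_sqrt h0]

lemma FF_maps (l : Fin n) {w : ℝ} (hw : |w| < 1) : Set.MapsTo (FF l w) (DD l) (ball 0 1) := by
  intro z hz
  rw [mem_ball_zero_iff]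
  have hpos : 0 < ‖1 - (w : ℂ) * z l‖ := norm_pos_iff.2 (ne_of_re (one_sub_ne hw (coord_lt_one hz l)))
  have h1 : ‖FF l w z‖ ^ 2 < 1 := by
    rw [FF_norm l hw, div_lt_one (by positivity)]
    have h2 := mob w (z l)
    have h3 := mem_bound hz
    rw [norm_sq_sum l] at h3
    have h4 : 0 < 1 - w ^ 2 := by
      have := abs_lt.1 hw
      nlinarith
    nlinarith
  nlinarith [norm_nonneg (FF l w z)]

lemma FF_inj (l : Fin n) {w : ℝ} (hw : |w| < 1) : Set.InjOn (FF l w) (DD l) := by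
  intro x hx y hy hxy
  have hx0 := ne_of_re (one_sub_ne hw (coord_lt_one hx l))
  have hy0 := ne_of_re (one_sub_ne hw (coord_lt_one hy l))
  have h4 : 0 < 1 - w ^ 2 := by
    have := abs_lt.1 hw
    nlinarith
  have h5 : (1 - (w : ℂ) ^ 2) ≠ 0 := by
    have : ((1 - w ^ 2 : ℝ) : ℂ) ≠ 0 := by exact_mod_cast h4.ne'
    simpa using this
  have hl : x l = y l := by
    have h1 : FF l w x l = FF l w y l := by rw [hxy]
    rw [FF_l, FF_l, div_eq_div_iff hx0 hy0] at h1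
    have h2 : (1 - (w : ℂ) ^ 2) * (x l - y l) = 0 := by linear_combination h1
    rcases mul_eq_zero.1 h2 with h3 | h3
    · exact absurd h3 h5
    · exact sub_eq_zero.1 h3
  ext i
  by_cases hi : i = l
  · subst hi; exact hl
  · have h1 : FF l w x i = FF l w y i := by rw [hxy]
    rw [FF_i hi, FF_i hi, hl] at h1
    rw [div_left_inj' hy0] at h1
    have h6 : (Real.sqrt ((1 - w ^ 2) / 2) : ℂ) ≠ 0 := by
      have : Real.sqrt ((1 - w ^ 2) / 2) ≠ 0 := (Real.sqrt_pos.2 (by linarith)).ne'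
      exact_mod_cast this
    exact mul_left_cancel₀ h6 h1

lemma FF_surj (l : Fin n) {w ρ : ℝ} (hw : |w| < 1) (hρ0 : 0 < ρ) (hρ1 : ρ < 1)
    (hwρ : 1 - w ^ 2 ≤ 2 * (1 - ρ) ^ 3) : ball 0 ρ ⊆ FF l w '' DD l := by
  intro b hb
  rw [mem_ball_zero_iff] at hb
  have h4 : 0 < 1 - w ^ 2 := by
    have := abs_lt.1 hw
    nlinarith
  have hbl : ‖b l‖ < ρ := by
    have h1 := coord_le b l
    nlinarith [norm_nonneg b, norm_nonneg (b l)]
  have hw' : |(-w)| < 1 := by rwa [abs_neg]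
  have hp0 := one_sub_ne hw' (hbl.trans hρ1)
  have hp : 1 + (w : ℂ) * b l ≠ 0 := by
    have := ne_of_re hp0
    simpa using this
  set P : ℂ := 1 + (w : ℂ) * b l with hP
  have hP' : 1 - ((-w : ℝ) : ℂ) * b l = P := by rw [hP]; push_cast; ring
  let z : EuclideanSpace ℂ (Fin n) := WithLp.toLp 2 fun i => if i = l then (b l + w) / P
    else (Real.sqrt (2 * (1 - w ^ 2)) : ℂ) * b i / P
  have hzl : z l = (b l + w) / P := by simp [z]
  have hzi : ∀ i, i ≠ l → z i = (Real.sqrt (2 * (1 - w ^ 2)) : ℂ) * b i / P := by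
    intro i hi; simp [z, hi]
  have hPn : 0 < ‖P‖ := norm_pos_iff.2 hp
  have hPl : 1 - ρ ≤ ‖P‖ := by
    have h1 : ‖(1 : ℂ)‖ ≤ ‖P‖ + ‖(w : ℂ) * b l‖ := by
      have : (1 : ℂ) = P - (w : ℂ) * b l := by rw [hP]; ring
      calc ‖(1 : ℂ)‖ = ‖P - (w : ℂ) * b l‖ := by rw [← this]
        _ ≤ ‖P‖ + ‖(w : ℂ) * b l‖ := norm_sub_le _ _
    rw [norm_one, norm_mul, Complex.norm_real, Real.norm_eq_abs] at h1
    nlinarith [norm_nonneg (b l), abs_nonneg w]
  have hmob := mob (-w) (b l)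
  rw [hP'] at hmob
  have e1 : b l - ((-w : ℝ) : ℂ) = b l + w := by push_cast; ring
  rw [e1] at hmob
  -- membership
  have hzD : z ∈ DD l := by
    show rr l z < 0
    rw [rr_eq]
    have hs : ∑ i ∈ Finset.univ.erase l, ‖z i‖ ^ 2 =
        2 * (1 - w ^ 2) * (∑ i ∈ Finset.univ.erase l, ‖b i‖ ^ 2) / ‖P‖ ^ 2 := by
      rw [Finset.mul_sum, Finset.sum_div]
      refine Finset.sum_congr rfl fun i hi => ?_
      rw [hzi i (Finset.ne_of_mem_erase hi), norm_div, norm_mul, div_pow, mul_pow,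
        Complex.norm_real, Real.norm_eq_abs, sq_abs, Real.sq_sqrt (by positivity)]
    rw [hs]
    set S := ∑ i ∈ Finset.univ.erase l, ‖b i‖ ^ 2 with hS
    have hS0 : 0 ≤ S := Finset.sum_nonneg fun i _ => by positivity
    have hb2 : S + ‖b l‖ ^ 2 < ρ ^ 2 := by
      rw [hS, ← norm_sq_sum l]
      nlinarith [norm_nonneg b]
    set β := ‖b l‖ ^ 2 with hβ
    have hβ0 : 0 ≤ β := by positivity
    have hzl2 : ‖z l‖ ^ 2 = 1 - (1 - w ^ 2) * (1 - β) / ‖P‖ ^ 2 := by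
      rw [hzl, norm_div, div_pow, eq_sub_iff_add_eq, ← add_div, div_eq_one_iff_eq (by positivity)]
      have : (1 - (-w) ^ 2) * (1 - ‖b l‖ ^ 2) = (1 - w ^ 2) * (1 - β) := by rw [hβ]; ring
      rw [this] at hmob
      linarith
    have hzl4 : ‖z l‖ ^ 4 = (1 - (1 - w ^ 2) * (1 - β) / ‖P‖ ^ 2) ^ 2 := by
      rw [← hzl2]; ring
    rw [hzl4]
    set X := (1 - w ^ 2) / ‖P‖ ^ 2 with hX
    have hX0 : 0 < X := by positivity
    have e2 : 2 * (1 - w ^ 2) * S / ‖P‖ ^ 2 = 2 * X * S := by rw [hX]; ring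
    have e3 : (1 - w ^ 2) * (1 - β) / ‖P‖ ^ 2 = X * (1 - β) := by rw [hX]; ring
    rw [e2, e3]
    have hX1 : X ≤ 2 * (1 - ρ ^ 2) := by
      rw [hX, div_le_iff₀ (by positivity)]
      have h7 : (1 - ρ) ^ 2 ≤ ‖P‖ ^ 2 := by
        have : 0 ≤ 1 - ρ := by linarith
        exact pow_le_pow_left₀ this hPl 2
      have h8 : 0 ≤ 1 - ρ ^ 2 := by nlinarith
      calc 1 - w ^ 2 ≤ 2 * (1 - ρ) ^ 3 := hwρ
        _ = 2 * (1 - ρ) * (1 - ρ) ^ 2 := by ring
        _ ≤ 2 * (1 - ρ ^ 2) * (1 - ρ) ^ 2 := by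
          refine mul_le_mul_of_nonneg_right ?_ (by positivity)
          nlinarith
        _ ≤ 2 * (1 - ρ ^ 2) * ‖P‖ ^ 2 := by
          exact mul_le_mul_of_nonneg_left h7 (by linarith)
    have hβ1 : β < 1 := by nlinarith
    -- 2 S < (1 - β) (2 - X (1 - β))
    have h9 : 2 * S < (1 - β) * (2 - X * (1 - β)) := by
      have hρ2 : ρ ^ 2 ≤ 1 := by nlinarith
      have h10 : S < ρ ^ 2 * (1 - β) := by
        have : ρ ^ 2 * β ≤ 1 * β := mul_le_mul_of_nonneg_right hρ2 hβ0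
        linarith
      have h11 : X * (1 - β) ≤ 2 * (1 - ρ ^ 2) := by
        have : X * (1 - β) ≤ X * 1 := mul_le_mul_of_nonneg_left (by linarith) hX0.le
        linarith
      have h13 : (1 - β) * (2 * ρ ^ 2) ≤ (1 - β) * (2 - X * (1 - β)) :=
        mul_le_mul_of_nonneg_left (by linarith) (by linarith)
      linarith
    have h12 : 2 * X * S + (1 - X * (1 - β)) ^ 2 - 1 =
        X * (2 * S - (1 - β) * (2 - X * (1 - β))) := by ring
    rw [h12]
    exact mul_neg_of_pos_of_neg hX0 (by linarith)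
  refine ⟨z, hzD, ?_⟩
  have h5 : (1 - (w : ℂ) ^ 2) ≠ 0 := by
    have : ((1 - w ^ 2 : ℝ) : ℂ) ≠ 0 := by exact_mod_cast h4.ne'
    simpa using this
  have h6 : 1 - (w : ℂ) * z l = (1 - (w : ℂ) ^ 2) / P := by
    rw [hzl, eq_div_iff hp, sub_mul, mul_assoc, div_mul_cancel₀ _ hp, hP]
    ring
  ext i
  by_cases hi : i = l
  · subst hi
    rw [FF_l, h6, hzl, div_eq_iff (div_ne_zero h5 hp)]
    have e4 : (b i + w) / P - w = (b i + w - w * P) / P := by
      rw [sub_div, mul_div_assoc, div_self hp, mul_one]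
    rw [e4, ← mul_div_assoc]
    congr 1
    rw [hP]
    ring
  · rw [FF_i hi, h6, hzi i hi, div_eq_iff (div_ne_zero h5 hp)]
    have h7 : (Real.sqrt ((1 - w ^ 2) / 2) : ℂ) * (Real.sqrt (2 * (1 - w ^ 2)) : ℂ) =
        1 - (w : ℂ) ^ 2 := by
      rw [← Complex.ofReal_mul, ← Real.sqrt_mul (by positivity)]
      have : (1 - w ^ 2) / 2 * (2 * (1 - w ^ 2)) = (1 - w ^ 2) ^ 2 := by ring
      rw [this, Real.sqrt_sq h4.le]
      push_cast
      ring
    rw [← mul_div_assoc, ← mul_assoc, h7, mul_div_assoc, mul_comm (b i)]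
    ring

end Pool.Agent.H722S
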