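import Pool.Agent.H722S.Der

/-! Finite type (at most four) of every boundary point. -/

set_option autoImplicit false

open Filter Topology Metric Asymptotics

namespace Pool.Agent.H722S

variable {n : ℕ}

lemma exists_sphere {H : ℂ → ℂ} {s : ℝ} (hs : 0 < s) (hH : DiffContOnCl ℂ H (ball 0 s)) :
    ∃ t, ‖t‖ = s ∧ (H 0).re ≤ (H t).re := by
  obtain ⟨z, hz, hmax⟩ := Complex.exists_mem_frontier_isMaxOn_norm (f := fun t => Complex.exp (H t))
    (isBounded_ball (x := (0 : ℂ)) (r := s)) ⟨0, mem_ball_self hs⟩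
    (Complex.differentiable_exp.comp_diffContOnCl hH)
  rw [frontier_ball (0 : ℂ) hs.ne'] at hz
  refine ⟨z, by simpa using hz, ?_⟩
  have h := hmax (subset_closure (mem_ball_self hs))
  simpa [Complex.norm_exp] using h

lemma flat {f : ℂ → ℝ} (hf : AnalyticAt ℝ f 0) {N : ℕ}
    (h : ∀ k ≤ N, iteratedFDeriv ℝ k f 0 = 0) : f =O[𝓝 0] fun t => ‖t‖ ^ (N + 1) := by
  obtain ⟨p, hp⟩ := hf
  have h1 := hp.isBigO_sub_partialSum_pow (N + 1)
  have h2 : ∀ y, p.partialSum (N + 1) y = 0 := by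
    intro y
    unfold FormalMultilinearSeries.partialSum
    refine Finset.sum_eq_zero fun k hk => ?_
    obtain ⟨r, hr⟩ := hp
    have h3 := hr.factorial_smul y k
    rw [h k (by simpa [Nat.lt_succ_iff] using hk)] at h3
    simpa [Nat.factorial_ne_zero] using h3
  simpa [h2] using h1

lemma omega_rr (l : Fin n) : ContDiff ℝ ⊤ (rr l) := by
  have h1 : ∀ i : Fin n, ContDiff ℝ ⊤ (fun z : EuclideanSpace ℂ (Fin n) => ‖z i‖ ^ 2) := by
    intro i
    exact (contDiff_norm_sq ℝ).comp (pr i).contDiff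
  have he : rr l = fun z => (∑ i ∈ Finset.univ.erase l, ‖z i‖ ^ 2) + (‖z l‖ ^ 2) ^ 2 - 1 := by
    ext z
    rw [rr_eq]
    ring
  rw [he]
  exact ((ContDiff.sum fun i _ => h1 i).add ((h1 l).pow 2)).sub contDiff_const

lemma analytic_comp (l : Fin n) {γ : ℂ → EuclideanSpace ℂ (Fin n)} (hγ : AnalyticAt ℂ γ 0) :
    AnalyticAt ℝ (rr l ∘ γ) 0 := by
  have h1 : AnalyticAt ℝ γ 0 := hγ.restrictScalars
  have h2 : AnalyticAt ℝ (rr l) (γ 0) := ContDiffAt.analyticAt (omega_rr l).contDiffAt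
  exact h2.comp h1

/-- the lower bound for `|x + τ y|^2` -/
lemma low (x y b τ : ℂ) {σ : ℝ} (hτ : ‖τ‖ ^ 2 = σ) :
    ‖x‖ ^ 2 + (2 * (starRingEnd ℂ x * (τ * y)) + (σ : ℂ) * (2 * (starRingEnd ℂ b * y) -
      ((‖b‖ ^ 2 : ℝ) : ℂ))).re ≤ ‖x + τ * y‖ ^ 2 := by
  have h1 : ‖x + τ * y‖ ^ 2 = ‖x‖ ^ 2 + 2 * (starRingEnd ℂ x * (τ * y)).re + σ * ‖y‖ ^ 2 := by
    rw [← hτ, ← Complex.normSq_eq_norm_sq, ← Complex.normSq_eq_norm_sq, ← Complex.normSq_eq_norm_sq,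
      ← Complex.normSq_eq_norm_sq, Complex.normSq_add, Complex.normSq_mul]
    simp [Complex.mul_re, Complex.mul_im]
    ring
  have h2 : 0 ≤ ‖y - b‖ ^ 2 := by positivity
  have h3 : ‖y - b‖ ^ 2 = ‖y‖ ^ 2 - 2 * (starRingEnd ℂ b * y).re + ‖b‖ ^ 2 := by
    rw [← Complex.normSq_eq_norm_sq, ← Complex.normSq_eq_norm_sq, ← Complex.normSq_eq_norm_sq,
      Complex.normSq_sub]
    simp [Complex.mul_re, Complex.mul_im]
    ring
  have hσ : 0 ≤ σ := by rw [← hτ]; positivity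
  have h4 : (2 * (starRingEnd ℂ x * (τ * y)) + (σ : ℂ) * (2 * (starRingEnd ℂ b * y) -
      ((‖b‖ ^ 2 : ℝ) : ℂ))).re = 2 * (starRingEnd ℂ x * (τ * y)).re +
      σ * (2 * (starRingEnd ℂ b * y).re - ‖b‖ ^ 2) := by
    rw [Complex.add_re, Complex.re_ofReal_mul, Complex.sub_re, Complex.ofReal_re]
    simp
  rw [h4, h1]
  nlinarith

end Pool.Agent.H722S
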