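import Pool.Agent.H722S.Typ

set_option autoImplicit false

open Filter Topology Metric Asymptotics

namespace Pool.Agent.H722S

variable {n : ℕ}

/-- the holomorphic minorant of `|x + τ y|^2 - |x|^2` -/
noncomputable def gg (σ : ℝ) (x b τ y : ℂ) : ℂ :=
  2 * (starRingEnd ℂ x * (τ * y)) + (σ : ℂ) * (2 * (starRingEnd ℂ b * y) - ((‖b‖ ^ 2 : ℝ) : ℂ))

lemma gg_zero (σ : ℝ) (x b : ℂ) : (gg σ x b 0 b).re = σ * ‖b‖ ^ 2 := by
  have h : starRingEnd ℂ b * b = ((‖b‖ ^ 2 : ℝ) : ℂ) := by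
    rw [mul_comm, Complex.mul_conj, Complex.normSq_eq_norm_sq]
  unfold gg
  rw [h, Complex.add_re, Complex.re_ofReal_mul]
  have h2 : (2 * ((‖b‖ ^ 2 : ℝ) : ℂ) - ((‖b‖ ^ 2 : ℝ) : ℂ)) = ((‖b‖ ^ 2 : ℝ) : ℂ) := by ring
  rw [h2, Complex.ofReal_re]
  simp

lemma gg_low (x y b τ : ℂ) {σ : ℝ} (hτ : ‖τ‖ ^ 2 = σ) :
    ‖x‖ ^ 2 + (gg σ x b τ y).re ≤ ‖x + τ * y‖ ^ 2 := low x y b τ hτ

lemma gg_diff {U : Set ℂ} {σ : ℝ} {x b : ℂ} {τ y : ℂ → ℂ} (hτ : DifferentiableOn ℂ τ U)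
    (hy : DifferentiableOn ℂ y U) : DifferentiableOn ℂ (fun t => gg σ x b (τ t) (y t)) U := by
  unfold gg
  fun_prop

theorem finite_type (l : Fin n) {q : EuclideanSpace ℂ (Fin n)} (hq : rr l q = 0)
    {γ : ℂ → EuclideanSpace ℂ (Fin n)} {ε : ℝ} (hε : 0 < ε)
    (hγ : DifferentiableOn ℂ γ (ball 0 ε)) (h0 : γ 0 = q) {m : ℕ} (hm : 1 ≤ m)
    (hne : iteratedDeriv m γ 0 ≠ 0) (hlow : ∀ j, 1 ≤ j → j < m → iteratedDeriv j γ 0 = 0) :
    ∃ k, k ≤ 4 * m ∧ iteratedFDeriv ℝ k (rr l ∘ γ) 0 ≠ 0 := by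
  by_contra hcon
  push Not at hcon
  have hA : AnalyticAt ℂ γ 0 := hγ.analyticAt (ball_mem_nhds 0 hε)
  have hgA : AnalyticAt ℂ (fun t => -q + γ t) 0 := analyticAt_const.add hA
  have hord : analyticOrderAt (fun t => -q + γ t) 0 = m := by
    rw [analyticOrderAt_eq_nat_iff_iteratedDeriv_eq_zero hgA]
    constructor
    · intro k hk
      rcases Nat.eq_zero_or_pos k with rfl | hk0
      · simp [h0]
      · rw [iteratedDeriv_const_add hk0]
        exact hlow k hk0 hk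
    · rw [iteratedDeriv_const_add (by omega)]
      exact hne
  obtain ⟨h, hh, ha, hfac⟩ := hgA.analyticOrderAt_eq_natCast.1 hord
  obtain ⟨C, hC, hbd⟩ := (flat (analytic_comp l hA) hcon).exists_pos
  have hbd' := hbd.bound
  have hall := (hfac.and (hh.eventually_analyticAt.and hbd'))
  obtain ⟨δ, hδ, hball⟩ := Metric.eventually_nhds_iff_ball.1 hall
  -- the claim
  have hγt : ∀ t ∈ ball (0 : ℂ) δ, ∀ i, γ t i = q i + t ^ m * h t i := by
    intro t ht i
    have h1 := (hball t ht).1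
    simp only [sub_zero] at h1
    have h2 : γ t = q + t ^ m • h t := by rw [← h1]; abel
    rw [h2]
    simp
  have hdiff : ∀ i, DifferentiableOn ℂ (fun t => h t i) (ball 0 δ) := by
    intro i t ht
    have h1 := (hball t ht).2.1.differentiableAt
    exact (((EuclideanSpace.proj i : EuclideanSpace ℂ (Fin n) →L[ℂ] ℂ).differentiableAt).comp t
      h1).differentiableWithinAt
  have hq' : ∑ i ∈ Finset.univ.erase l, ‖q i‖ ^ 2 + ‖q l‖ ^ 4 - 1 = 0 := by
    rw [← rr_eq]; exact hq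
  have hm0 : (0 : ℂ) ^ m = 0 := zero_pow (by omega)
  have claim : ∃ c : ℝ, 0 < c ∧ ∀ s : ℝ, 0 < s → s < δ → s < 1 →
      ∃ t : ℂ, ‖t‖ = s ∧ c * s ^ (4 * m) ≤ rr l (γ t) := by
    by_cases hc : q l = 0 ∧ h 0 l ≠ 0
    · obtain ⟨hql, hal⟩ := hc
      refine ⟨‖h 0 l ^ 2‖ ^ 2, pow_pos (norm_pos_iff.2 (pow_ne_zero 2 hal)) 2,
        fun s hs hsδ hs1 => ?_⟩
      let F : ℂ → ℂ := fun t =>
        (∑ i ∈ Finset.univ.erase l, gg ((s ^ m) ^ 2) (q i) (h 0 i) (t ^ m) (h t i)) +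
        gg (((s ^ m) ^ 2) ^ 2) 0 (h 0 l ^ 2) ((t ^ m) ^ 2) (h t l ^ 2)
      have hF : DifferentiableOn ℂ F (ball 0 δ) := by
        refine DifferentiableOn.add ?_ (gg_diff (by fun_prop) ((hdiff l).pow 2))
        exact DifferentiableOn.fun_sum fun i _ => gg_diff (by fun_prop) (hdiff i)
      obtain ⟨t, ht, hle⟩ := exists_sphere hs (hF.diffContOnCl_ball (closedBall_subset_ball hsδ))
      have htb : t ∈ ball (0 : ℂ) δ := by rw [mem_ball_zero_iff, ht]; exact hsδ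
      refine ⟨t, ht, le_trans ?_ (hle.trans ?_)⟩
      · have h1 : (F 0).re = (∑ i ∈ Finset.univ.erase l, (s ^ m) ^ 2 * ‖h 0 i‖ ^ 2) +
            ((s ^ m) ^ 2) ^ 2 * ‖h 0 l ^ 2‖ ^ 2 := by
          simp only [F, hm0, Complex.add_re, Complex.re_sum, gg_zero]
          rw [show ((0 : ℂ)) ^ 2 = 0 by norm_num, gg_zero]
        rw [h1]
        have h2 : 0 ≤ ∑ i ∈ Finset.univ.erase l, (s ^ m) ^ 2 * ‖h 0 i‖ ^ 2 :=
          Finset.sum_nonneg fun i _ => by positivity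
        have h3 : s ^ (4 * m) = ((s ^ m) ^ 2) ^ 2 := by rw [← pow_mul, ← pow_mul]; ring_nf
        rw [h3]
        nlinarith
      · rw [rr_eq]
        have h4 : ∀ i ∈ Finset.univ.erase l, ‖q i‖ ^ 2 +
            (gg ((s ^ m) ^ 2) (q i) (h 0 i) (t ^ m) (h t i)).re ≤ ‖γ t i‖ ^ 2 := by
          intro i _
          rw [hγt t htb i]
          exact gg_low _ _ _ _ (by rw [norm_pow, ht])
        have h5 := Finset.sum_le_sum h4
        rw [Finset.sum_add_distrib] at h5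
        have h6 : ‖(0 : ℂ)‖ ^ 2 + (gg (((s ^ m) ^ 2) ^ 2) 0 (h 0 l ^ 2) ((t ^ m) ^ 2)
            (h t l ^ 2)).re ≤ ‖(0 : ℂ) + (t ^ m) ^ 2 * h t l ^ 2‖ ^ 2 :=
          gg_low _ _ _ _ (by rw [norm_pow, norm_pow, ht])
        have h7 : ‖(0 : ℂ) + (t ^ m) ^ 2 * h t l ^ 2‖ ^ 2 = ‖γ t l‖ ^ 4 := by
          rw [hγt t htb l, hql, zero_add, zero_add, ← mul_pow, norm_pow]
          ring
        rw [h7] at h6
        simp only [F, Complex.add_re, Complex.re_sum]
        have e1 : ‖q l‖ ^ 4 = 0 := by rw [hql]; simp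
        have e2 : ‖(0 : ℂ)‖ ^ 2 = 0 := by simp
        rw [e1] at hq'
        rw [e2] at h6
        linarith
    · have hS : 0 < (∑ i ∈ Finset.univ.erase l, ‖h 0 i‖ ^ 2) + ‖2 * q l * h 0 l‖ ^ 2 := by
        have hnn : ∀ i ∈ Finset.univ.erase l, 0 ≤ ‖h 0 i‖ ^ 2 := fun i _ => by positivity
        by_cases hal : h 0 l = 0
        · have : ∃ i, i ≠ l ∧ h 0 i ≠ 0 := by
            by_contra hc2
            push Not at hc2
            apply ha
            ext i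
            by_cases hi : i = l
            · subst hi; simpa using hal
            · simpa using hc2 i hi
          obtain ⟨i, hi, hi2⟩ := this
          have h1 := Finset.single_le_sum hnn (Finset.mem_erase.2 ⟨hi, Finset.mem_univ i⟩)
          have h2 : 0 < ‖h 0 i‖ ^ 2 := pow_pos (norm_pos_iff.2 hi2) 2
          have h3 : 0 ≤ ‖2 * q l * h 0 l‖ ^ 2 := by positivity
          linarith
        · have hql : q l ≠ 0 := fun hz => hc ⟨hz, hal⟩
          have h1 := Finset.sum_nonneg hnn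
          have h3 : 0 < ‖2 * q l * h 0 l‖ ^ 2 :=
            pow_pos (norm_pos_iff.2 (mul_ne_zero (mul_ne_zero two_ne_zero hql) hal)) 2
          linarith
      refine ⟨_, hS, fun s hs hsδ hs1 => ?_⟩
      let F : ℂ → ℂ := fun t =>
        (∑ i ∈ Finset.univ.erase l, gg ((s ^ m) ^ 2) (q i) (h 0 i) (t ^ m) (h t i)) +
        gg ((s ^ m) ^ 2) (q l ^ 2) (2 * q l * h 0 l) (t ^ m)
          (2 * q l * h t l + t ^ m * h t l ^ 2)
      have hF : DifferentiableOn ℂ F (ball 0 δ) := by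
        have hl := hdiff l
        refine DifferentiableOn.add ?_ (gg_diff (by fun_prop) (by fun_prop))
        exact DifferentiableOn.fun_sum fun i _ => gg_diff (by fun_prop) (hdiff i)
      obtain ⟨t, ht, hle⟩ := exists_sphere hs (hF.diffContOnCl_ball (closedBall_subset_ball hsδ))
      have htb : t ∈ ball (0 : ℂ) δ := by rw [mem_ball_zero_iff, ht]; exact hsδ
      refine ⟨t, ht, le_trans ?_ (hle.trans ?_)⟩
      · have h1 : (F 0).re = (∑ i ∈ Finset.univ.erase l, (s ^ m) ^ 2 * ‖h 0 i‖ ^ 2) +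
            (s ^ m) ^ 2 * ‖2 * q l * h 0 l‖ ^ 2 := by
          simp only [F, hm0, Complex.add_re, Complex.re_sum, gg_zero, zero_mul, add_zero]
        rw [h1, ← Finset.mul_sum, ← mul_add, mul_comm]
        have h3 : s ^ (4 * m) ≤ (s ^ m) ^ 2 := by
          rw [← pow_mul]
          exact pow_le_pow_of_le_one hs.le hs1.le (by omega)
        exact mul_le_mul_of_nonneg_right h3 hS.le
      · rw [rr_eq]
        have h4 : ∀ i ∈ Finset.univ.erase l, ‖q i‖ ^ 2 +
            (gg ((s ^ m) ^ 2) (q i) (h 0 i) (t ^ m) (h t i)).re ≤ ‖γ t i‖ ^ 2 := by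
          intro i _
          rw [hγt t htb i]
          exact gg_low _ _ _ _ (by rw [norm_pow, ht])
        have h5 := Finset.sum_le_sum h4
        rw [Finset.sum_add_distrib] at h5
        have h6 : ‖q l ^ 2‖ ^ 2 + (gg ((s ^ m) ^ 2) (q l ^ 2) (2 * q l * h 0 l) (t ^ m)
            (2 * q l * h t l + t ^ m * h t l ^ 2)).re ≤
            ‖q l ^ 2 + t ^ m * (2 * q l * h t l + t ^ m * h t l ^ 2)‖ ^ 2 :=
          gg_low _ _ _ _ (by rw [norm_pow, ht])
        have h7 : ‖q l ^ 2 + t ^ m * (2 * q l * h t l + t ^ m * h t l ^ 2)‖ ^ 2 =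
            ‖γ t l‖ ^ 4 := by
          rw [hγt t htb l]
          have : q l ^ 2 + t ^ m * (2 * q l * h t l + t ^ m * h t l ^ 2) =
              (q l + t ^ m * h t l) ^ 2 := by ring
          rw [this, norm_pow]
          ring
        have h8 : ‖q l ^ 2‖ ^ 2 = ‖q l‖ ^ 4 := by rw [norm_pow]; ring
        rw [h7, h8] at h6
        simp only [F, Complex.add_re, Complex.re_sum]
        linarith
  obtain ⟨c, hc, hcl⟩ := claim
  have hs : ∃ s : ℝ, 0 < s ∧ s < δ ∧ s < 1 ∧ C * s < c := by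
    refine ⟨min (δ / 2) (min (1 / 2) (c / (2 * C))), ?_, ?_, ?_, ?_⟩
    · positivity
    · exact lt_of_le_of_lt (min_le_left _ _) (by linarith)
    · exact lt_of_le_of_lt ((min_le_right _ _).trans (min_le_left _ _)) (by norm_num)
    · have h1 : min (δ / 2) (min (1 / 2) (c / (2 * C))) ≤ c / (2 * C) :=
        (min_le_right _ _).trans (min_le_right _ _)
      calc C * min (δ / 2) (min (1 / 2) (c / (2 * C))) ≤ C * (c / (2 * C)) :=
            mul_le_mul_of_nonneg_left h1 hC.le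
        _ = c / 2 := by field_simp
        _ < c := by linarith
  obtain ⟨s, hs0, hsδ, hs1, hsc⟩ := hs
  obtain ⟨t, ht, hle⟩ := hcl s hs0 hsδ hs1
  have htb : t ∈ ball (0 : ℂ) δ := by rw [mem_ball_zero_iff, ht]; exact hsδ
  have h1 := (hball t htb).2.2
  simp only [Function.comp, Real.norm_eq_abs, norm_pow, ht] at h1
  have h2 := le_abs_self (rr l (γ t))
  have h3 : |s| = s := abs_of_pos hs0
  rw [h3] at h1
  have h4 : 0 < s ^ (4 * m) := by positivity
  have h5 : C * s ^ (4 * m + 1) = (C * s) * s ^ (4 * m) := by ring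
  rw [h5] at h1
  nlinarith

end Pool.Agent.H722S
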